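import Mathlib

set_option autoImplicit false

/-!
Asymptotics on windows `[aT, bT]`.
-/

open Filter Topology

namespace Pool.Agent.Q30.NLS

/-- `ℓ` is positive, continuous and slowly varying -/
structure Slow (ℓ : ℝ → ℝ) : Prop where
  pos : ∀ T, 1 < T → 0 < ℓ T
  cont : ContinuousOn ℓ (Set.Ioi 1)
  ratio : ∀ b : ℝ, 0 < b → Tendsto (fun T => ℓ (b * T) / ℓ T) atTop (𝓝 1)

/-- the gauge `T ℓ(T)` -/
noncomputable def g (κ : ℝ → ℝ) (T : ℝ) : ℝ := T * κ T

lemma g_pos {κ : ℝ → ℝ} (hκ : Slow κ) {T : ℝ} (hT : 1 < T) : 0 < g κ T := by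
  unfold g
  have := hκ.pos T hT
  positivity

lemma g_ratio {κ : ℝ → ℝ} (hκ : Slow κ) {b : ℝ} (hb : 0 < b) : Tendsto (fun T => g κ (b * T) / g κ T) atTop (𝓝 b) := by
  have h2 := (hκ.ratio b hb).const_mul b
  rw [mul_one] at h2
  refine h2.congr' ?_
  filter_upwards [eventually_gt_atTop 1] with T hT
  unfold g
  rw [mul_div_mul_comm (b * T), mul_div_assoc b T T, div_self (by linarith : T ≠ 0), mul_one]

/-- the asymptotic formula on all windows -/
def Win (A : ℝ → ℝ → ℝ → ℝ) (κ : ℝ → ℝ) (c : ℝ) : Prop := ∀ a b : ℝ, 0 < a → a < b →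
  Tendsto (fun T => A T a b / g κ T) atTop (𝓝 (c * (b - a)))

/-- comparison of two families on slightly larger windows -/
def Cmp (A B : ℝ → ℝ → ℝ → ℝ) : Prop := ∀ a b : ℝ, 0 < a → a < b → b ≤ 2 * a → ∀ ε : ℝ, 0 < ε → ε < a / 2 →
  ∀ᶠ T in atTop, B T a b ≤ (1 + ε) * A T (a - ε) (b + ε)

lemma small_win {A B : ℝ → ℝ → ℝ → ℝ} {κ : ℝ → ℝ} (hκ : Slow κ) {c : ℝ} (hA : Win A κ c) (h1 : Cmp A B) (h2 : Cmp B A) {a b : ℝ}
    (ha : 0 < a) (hab : a < b) (hb : b ≤ 2 * a) : Tendsto (fun T => B T a b / g κ T) atTop (𝓝 (c * (b - a))) := by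
  rw [tendsto_order]
  constructor
  · intro l hl
    -- lower bound
    have hcont : Tendsto (fun ε : ℝ => (1 + ε)⁻¹ * (c * ((b - ε) - (a + ε)))) (𝓝[>] 0) (𝓝 (c * (b - a))) := by
      have : Tendsto (fun ε : ℝ => (1 + ε)⁻¹ * (c * ((b - ε) - (a + ε)))) (𝓝 0)
          (𝓝 ((1 + 0)⁻¹ * (c * ((b - 0) - (a + 0))))) := by
        apply ContinuousAt.tendsto (f := fun ε : ℝ => (1 + ε)⁻¹ * (c * ((b - ε) - (a + ε))))
        apply ContinuousAt.mul
        · apply ContinuousAt.inv₀ (by fun_prop)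
          norm_num
        · fun_prop
      simp only [add_zero, sub_zero, inv_one, one_mul] at this
      exact this.mono_left nhdsWithin_le_nhds
    have hpos : ∀ᶠ ε : ℝ in 𝓝[>] 0, 0 < ε := self_mem_nhdsWithin
    have hsm : ∀ᶠ ε : ℝ in 𝓝[>] 0, ε < min (a / 2) ((b - a) / 2) :=
      (tendsto_nhdsWithin_of_tendsto_nhds tendsto_id).eventually_lt_const
        (lt_min (by linarith) (by linarith))
    obtain ⟨ε, ⟨hε, hε0⟩, hε1⟩ := ((hcont.eventually (lt_mem_nhds hl)).and hpos |>.and hsm).exists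
    have e1 : ε < a / 2 := hε1.trans_le (min_le_left _ _)
    have e2 : ε < (b - a) / 2 := hε1.trans_le (min_le_right _ _)
    have h3 := h2 (a + ε) (b - ε) (by linarith) (by linarith) (by linarith) ε hε0 (by linarith)
    have h4 := (hA (a + ε) (b - ε) (by linarith) (by linarith)).const_mul ((1 + ε)⁻¹)
    have h5 : ∀ᶠ T in atTop, l < (1 + ε)⁻¹ * (A T (a + ε) (b - ε) / g κ T) := h4.eventually (lt_mem_nhds hε)
    filter_upwards [h3, h5, eventually_gt_atTop 1] with T t1 t2 t3
    refine t2.trans_le ?_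
    have hg := g_pos hκ t3
    rw [add_sub_cancel_right, sub_add_cancel] at t1
    rw [← mul_div_assoc]
    apply div_le_div_of_nonneg_right _ hg.le
    rw [inv_mul_le_iff₀ (by linarith)]
    exact t1
  · intro u hu
    have hcont : Tendsto (fun ε : ℝ => (1 + ε) * (c * ((b + ε) - (a - ε)))) (𝓝[>] 0) (𝓝 (c * (b - a))) := by
      have : Tendsto (fun ε : ℝ => (1 + ε) * (c * ((b + ε) - (a - ε)))) (𝓝 0)
          (𝓝 ((1 + 0) * (c * ((b + 0) - (a - 0))))) := by
        apply ContinuousAt.tendsto (f := fun ε : ℝ => (1 + ε) * (c * ((b + ε) - (a - ε))))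
        fun_prop
      simp only [add_zero, sub_zero, one_mul] at this
      exact this.mono_left nhdsWithin_le_nhds
    have hpos : ∀ᶠ ε : ℝ in 𝓝[>] 0, 0 < ε := self_mem_nhdsWithin
    have hsm : ∀ᶠ ε : ℝ in 𝓝[>] 0, ε < a / 2 :=
      (tendsto_nhdsWithin_of_tendsto_nhds tendsto_id).eventually_lt_const (by linarith)
    obtain ⟨ε, ⟨hε, hε0⟩, e1⟩ := ((hcont.eventually (gt_mem_nhds hu)).and hpos |>.and hsm).exists
    have h3 := h1 a b ha hab hb ε hε0 e1
    have h4 := (hA (a - ε) (b + ε) (by linarith) (by linarith)).const_mul (1 + ε)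
    have h5 : ∀ᶠ T in atTop, (1 + ε) * (A T (a - ε) (b + ε) / g κ T) < u := h4.eventually (gt_mem_nhds hε)
    filter_upwards [h3, h5, eventually_gt_atTop 1] with T t1 t2 t3
    refine lt_of_le_of_lt ?_ t2
    have hg := g_pos hκ t3
    rw [← mul_div_assoc]
    exact div_le_div_of_nonneg_right t1 hg.le

/-- additivity in the window -/
def Additive (B : ℝ → ℝ → ℝ → ℝ) : Prop := ∀ᶠ T in atTop, ∀ a m b : ℝ, 0 < a → a < m → m < b →
  B T a b = B T a m + B T m b

theorem transfer {A B : ℝ → ℝ → ℝ → ℝ} {κ : ℝ → ℝ} (hκ : Slow κ) {c : ℝ} (hA : Win A κ c) (h1 : Cmp A B) (h2 : Cmp B A)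
    (hB : Additive B) : Win B κ c := by
  have hn : ∀ n : ℕ, ∀ a b : ℝ, 0 < a → a < b → b ≤ 2 ^ (n + 1) * a →
      Tendsto (fun T => B T a b / g κ T) atTop (𝓝 (c * (b - a))) := by
    intro n
    induction n with
    | zero =>
      intro a b ha hab hb
      exact small_win hκ hA h1 h2 ha hab (by simpa using hb)
    | succ n ih =>
      intro a b ha hab hb
      rcases le_or_gt b (2 * a) with h | h
      · exact small_win hκ hA h1 h2 ha hab h
      · have h3 := small_win hκ hA h1 h2 ha (show a < 2 * a by linarith) le_rfl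
        have h4 := ih (2 * a) b (by linarith) h (by rw [pow_succ] at hb; linarith)
        have h5 := h3.add h4
        have e : c * (2 * a - a) + c * (b - 2 * a) = c * (b - a) := by ring
        rw [e] at h5
        refine h5.congr' ?_
        filter_upwards [hB] with T hT
        rw [hT a (2 * a) b ha (by linarith) h, add_div]
  intro a b ha hab
  obtain ⟨n, hn'⟩ := pow_unbounded_of_one_lt (b / a) (by norm_num : (1 : ℝ) < 2)
  refine hn n a b ha hab ?_
  rw [div_lt_iff₀ ha] at hn'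
  have : (2 : ℝ) ^ n * a ≤ 2 ^ (n + 1) * a := by
    gcongr
    · norm_num
    · omega
  linarith

/-- from the window `[T/2, T]` to `[0, T]` -/
theorem of_half {F : ℝ → ℝ} (hF : Continuous F) {κ : ℝ → ℝ} (hκ : Slow κ) {c : ℝ}
    (h : Tendsto (fun T => (F T - F (T / 2)) / g κ T) atTop (𝓝 (c / 2))) :
    Tendsto (fun T => F T / g κ T) atTop (𝓝 c) := by
  have hρ : Tendsto (fun T => g κ (T / 2) / g κ T) atTop (𝓝 (1 / 2)) := by
    refine (g_ratio hκ (show (0 : ℝ) < 1 / 2 by norm_num)).congr fun T => ?_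
    rw [one_div_mul_eq_div]
  -- the error
  have he : Tendsto (fun T => (F T - F (T / 2)) / g κ T + c * (g κ (T / 2) / g κ T) - c) atTop (𝓝 0) := by
    have := (h.add (hρ.const_mul c)).sub_const c
    have e : c / 2 + c * (1 / 2) - c = 0 := by ring
    rwa [e] at this
  have hlim : ∀ η : ℝ, 0 < η → ∀ᶠ T in atTop, |F T / g κ T - c| < 5 * η := by
    intro η hη
    have ev1 : ∀ᶠ T in atTop, |g κ (T / 2) / g κ T| ≤ 3 / 4 := by
      have := hρ.abs.eventually_le_const (show |(1 / 2 : ℝ)| < 3 / 4 by norm_num)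
      exact this
    have ev2 : ∀ᶠ T in atTop, |(F T - F (T / 2)) / g κ T + c * (g κ (T / 2) / g κ T) - c| ≤ η := by
      have := he.abs
      rw [abs_zero] at this
      exact this.eventually_le_const hη
    obtain ⟨T₁, hT₁⟩ := eventually_atTop.1 (ev1.and (ev2.and (eventually_ge_atTop 4)))
    set T₂ : ℝ := max T₁ 4 with hT₂
    have hT4 : 4 ≤ T₂ := le_max_right _ _
    have hT₂pos : 0 < T₂ := by linarith
    have hstep : ∀ T, T₂ ≤ T → |F T / g κ T - c| ≤ 3 / 4 * |F (T / 2) / g κ (T / 2) - c| + η := by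
      intro T hT
      obtain ⟨t1, t2, -⟩ := hT₁ T ((le_max_left _ _).trans hT)
      have hg1 : 0 < g κ T := g_pos hκ (by linarith)
      have hg2 : 0 < g κ (T / 2) := g_pos hκ (by linarith)
      have e : F T / g κ T - c = (g κ (T / 2) / g κ T) * (F (T / 2) / g κ (T / 2) - c) +
          ((F T - F (T / 2)) / g κ T + c * (g κ (T / 2) / g κ T) - c) := by
        field_simp
        ring
      rw [e]
      refine (abs_add_le _ _).trans ?_
      rw [abs_mul]
      gcongr
    obtain ⟨M, hM⟩ : ∃ M : ℝ, ∀ T ∈ Set.Icc T₂ (2 * T₂), |F T / g κ T - c| ≤ M := by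
      have hc : ContinuousOn (fun T => F T / g κ T - c) (Set.Icc T₂ (2 * T₂)) := by
        apply ContinuousOn.sub _ continuousOn_const
        apply hF.continuousOn.div
        · unfold g
          apply continuousOn_id.mul
          apply hκ.cont.mono
          intro x hx
          have h1 : T₂ ≤ x := hx.1
          show 1 < x
          linarith
        · intro x hx
          exact (g_pos hκ (by linarith [hx.1])).ne'
      obtain ⟨M, hM⟩ := isCompact_Icc.exists_bound_of_continuousOn hc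
      exact ⟨M, hM⟩
    have hM0 : 0 ≤ M := (abs_nonneg _).trans (hM T₂ ⟨le_rfl, by linarith⟩)
    have hind : ∀ n : ℕ, ∀ T, 2 ^ n * T₂ ≤ T → T ≤ 2 ^ (n + 1) * T₂ → |F T / g κ T - c| ≤ (3 / 4) ^ n * M + 4 * η := by
      intro n
      induction n with
      | zero =>
        intro T h1 h2
        have := hM T ⟨by simpa using h1, by simpa using h2⟩
        rw [pow_zero, one_mul]
        linarith
      | succ n ih =>
        intro T h1 h2
        have h3 : T₂ ≤ T := by
          refine le_trans ?_ h1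
          have : (1 : ℝ) ≤ 2 ^ (n + 1) := one_le_pow₀ (by norm_num)
          nlinarith
        have h4 := ih (T / 2) (by rw [pow_succ] at h1; linarith) (by rw [pow_succ _ (n + 1)] at h2; linarith)
        have h5 := hstep T h3
        rw [pow_succ]
        linarith
    obtain ⟨N, hN⟩ : ∃ N : ℕ, (3 / 4 : ℝ) ^ N * M < η := by
      have h1 : Tendsto (fun n : ℕ => (3 / 4 : ℝ) ^ n * M) atTop (𝓝 (0 * M)) :=
        (tendsto_pow_atTop_nhds_zero_of_lt_one (by norm_num) (by norm_num)).mul_const M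
      rw [zero_mul] at h1
      exact (h1.eventually_lt_const hη).exists
    filter_upwards [eventually_ge_atTop (2 ^ N * T₂)] with T hT
    have hT1 : 1 ≤ T / T₂ := by
      rw [one_le_div hT₂pos]
      refine le_trans ?_ hT
      have : (1 : ℝ) ≤ 2 ^ N := one_le_pow₀ (by norm_num)
      nlinarith
    obtain ⟨n, hn1, hn2⟩ := exists_nat_pow_near hT1 (by norm_num : (1 : ℝ) < 2)
    rw [le_div_iff₀ hT₂pos] at hn1
    rw [div_lt_iff₀ hT₂pos] at hn2
    have h6 := hind n T hn1 hn2.le
    have hNn : N ≤ n := by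
      by_contra hcon
      push Not at hcon
      have h7 : (2 : ℝ) ^ (n + 1) ≤ 2 ^ N := pow_le_pow_right₀ (by norm_num) hcon
      have h8 : (2 : ℝ) ^ (n + 1) * T₂ ≤ 2 ^ N * T₂ := by gcongr
      linarith
    have h9 : (3 / 4 : ℝ) ^ n * M ≤ (3 / 4) ^ N * M := by
      apply mul_le_mul_of_nonneg_right _ hM0
      exact pow_le_pow_of_le_one (by norm_num) (by norm_num) hNn
    linarith
  rw [Metric.tendsto_atTop]
  intro ε hε
  obtain ⟨N, hN⟩ := eventually_atTop.1 (hlim (ε / 5) (by positivity))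
  refine ⟨N, fun T hT => ?_⟩
  rw [Real.dist_eq]
  have := hN T hT
  linarith

/-- powers of the logarithm -/
lemma slow_log (r : ℝ) : Slow fun T => Real.log T ^ r where
  pos := fun T hT => Real.rpow_pos_of_pos (Real.log_pos hT) _
  cont := by
    intro x hx
    have hx1 : 1 < x := hx
    have hl := Real.log_pos hx1
    apply ContinuousAt.continuousWithinAt
    exact (Real.continuousAt_log (by linarith)).rpow_const (Or.inl hl.ne')
  ratio := fun b hb => by
    have h1 : Tendsto (fun T : ℝ => Real.log b / Real.log T) atTop (𝓝 0) :=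
      tendsto_const_nhds.div_atTop Real.tendsto_log_atTop
    have h2 : Tendsto (fun T : ℝ => (Real.log b / Real.log T + 1) ^ r) atTop (𝓝 ((0 + 1) ^ r)) :=
      (h1.add_const 1).rpow_const (Or.inl (by norm_num))
    rw [zero_add, Real.one_rpow] at h2
    refine h2.congr' ?_
    have e3 : ∀ᶠ T in atTop, 1 < b * T := (tendsto_id.const_mul_atTop hb).eventually_gt_atTop 1
    filter_upwards [eventually_gt_atTop 1, e3] with T hT hbT
    have hl := Real.log_pos hT
    have hl2 := Real.log_pos hbT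
    rw [← Real.div_rpow hl2.le hl.le, Real.log_mul hb.ne' (by linarith), add_div, div_self hl.ne']

end Pool.Agent.Q30.NLS
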