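import Pool.Agent.Q30.NL.Win
import Pool.Agent.Results.MP_6a632e_nt.NearbyLines

set_option autoImplicit false

/-!
Moments of zeta on lines at distance `o(1 / log T)` from the critical line.
-/

open Filter Topology MeasureTheory

namespace Pool.Agent.Q30.NL

open Pool.Agent.Results.MP_6a632e_nt.NearbyLines (M)

/-- the integrand -/
lemma zeta_cont {x : ℝ} (hx : x ≠ 1 / 2) : Continuous fun t : ℝ => ‖riemannZeta (1 / 2 + x + Complex.I * t)‖ := by
  have h := (Pool.Agent.Q85.Mom.zx_cont hx).norm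
  refine h.congr fun t => ?_
  unfold Pool.Agent.Q85.Mom.zx
  rw [mul_comm Complex.I]

lemma int_cont {β x : ℝ} (hβ : 0 < β) (hx : x ≠ 1 / 2) :
    Continuous fun t : ℝ => ‖riemannZeta (1 / 2 + x + Complex.I * t)‖ ^ β :=
  (zeta_cont hx).rpow_const fun _ => Or.inr hβ.le

lemma M_mono {β x a b a' b' : ℝ} (hβ : 0 < β) (hx : x ≠ 1 / 2) (h1 : a' ≤ a) (h2 : a ≤ b) (h3 : b ≤ b') :
    M β x a b ≤ M β x a' b' := by
  unfold M
  apply intervalIntegral.integral_mono_interval h1 h2 h3
  · exact Eventually.of_forall fun t => Real.rpow_nonneg (norm_nonneg _) _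
  · exact (int_cont hβ hx).intervalIntegrable _ _

lemma M_nonneg {β x a b : ℝ} (h : a ≤ b) : 0 ≤ M β x a b := by
  unfold M
  exact intervalIntegral.integral_nonneg h fun t _ => Real.rpow_nonneg (norm_nonneg _) _

variable {β : ℝ} {δ : ℝ → ℝ}

/-- small shifts -/
structure Small (δ : ℝ → ℝ) : Prop where
  nonneg : ∀ T, 0 ≤ δ T
  lim : Tendsto (fun T => δ T * Real.log T) atTop (𝓝 0)

lemma Small.small (h : Small δ) : Tendsto δ atTop (𝓝 0) := by
  refine squeeze_zero' (Eventually.of_forall h.nonneg) ?_ h.lim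
  filter_upwards [Real.tendsto_log_atTop.eventually_ge_atTop 1] with T hT
  have := h.nonneg T
  nlinarith

lemma log_scale {a : ℝ} (ha : 0 < a) : Tendsto (fun T => Real.log (a * T)) atTop atTop :=
  Real.tendsto_log_atTop.comp (tendsto_id.const_mul_atTop ha)

lemma small_scale (h : Small δ) {a : ℝ} (ha : 0 < a) : Tendsto (fun T => δ T * Real.log (a * T)) atTop (𝓝 0) := by
  have h1 := (h.small.mul_const (Real.log a)).add h.lim
  rw [zero_mul, zero_add] at h1
  refine h1.congr' ?_
  filter_upwards [eventually_gt_atTop 0] with T hT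
  rw [Real.log_mul ha.ne' hT.ne']
  ring

lemma log_small {a ε : ℝ} (ha : 0 < a) (hε : 0 < ε) : ∀ᶠ T in atTop, 2 * Real.log (a * T) ≤ ε * T := by
  have h1 := Real.isLittleO_log_id_atTop.bound (show (0 : ℝ) < ε / (2 * a) by positivity)
  have h2 := (tendsto_id.const_mul_atTop ha).eventually (h1.and (eventually_gt_atTop 0))
  filter_upwards [h2] with T hT
  obtain ⟨h3, h4⟩ := hT
  simp only [id] at h3 h4
  rw [Real.norm_eq_abs, Real.norm_eq_abs, abs_of_pos h4] at h3
  have h5 := (le_abs_self _).trans h3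
  have h6 : ε / (2 * a) * (a * T) = ε * T / 2 := by field_simp
  rw [h6] at h5
  linarith

theorem cmp (hβ : 1 ≤ β) (h : Small δ) :
    Cmp (fun T a b => M β 0 (a * T) (b * T)) (fun T a b => M β (δ T) (a * T) (b * T)) ∧
    Cmp (fun T a b => M β (δ T) (a * T) (b * T)) (fun T a b => M β 0 (a * T) (b * T)) := by
  obtain ⟨C, T₀, hC, H⟩ := Pool.Agent.Results.MP_6a632e_nt.NearbyLines.result
  have hβ0 : 0 < β := by linarith
  have key : ∀ a b : ℝ, 0 < a → a < b → b ≤ 2 * a → ∀ ε : ℝ, 0 < ε → ε < a / 2 → ∀ᶠ T in atTop,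
      M β (δ T) (a * T) (b * T) ≤ (1 + ε) * M β 0 ((a - ε) * T) ((b + ε) * T) ∧
      M β 0 (a * T) (b * T) ≤ (1 + ε) * M β (δ T) ((a - ε) * T) ((b + ε) * T) := by
    intro a b ha hab hb ε hε hεa
    have ha2 : 0 < a / 2 := by linarith
    have l1 := small_scale h ha2
    have l2 := log_scale ha2
    have l3 : Tendsto (fun T => C * β * (1 + δ T * Real.log (a / 2 * T)) / Real.log (a / 2 * T)) atTop (𝓝 0) := by
      have h1 : Tendsto (fun T => C * β * (1 + δ T * Real.log (a / 2 * T))) atTop (𝓝 (C * β * (1 + 0))) :=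
        (l1.const_add 1).const_mul (C * β)
      exact h1.div_atTop l2
    have l4 : Tendsto (fun T => β * (δ T * Real.log (a / 2 * T)) / 2 +
        C * β * (1 + δ T * Real.log (a / 2 * T)) / Real.log (a / 2 * T)) atTop (𝓝 0) := by
      have h1 := ((l1.const_mul β).div_const 2).add l3
      simpa using h1
    have e1 : ∀ᶠ T in atTop, Real.exp (C * β * (1 + δ T * Real.log (a / 2 * T)) / Real.log (a / 2 * T)) ≤ 1 + ε := by
      have h1 := (Real.continuous_exp.tendsto 0).comp l3
      rw [Real.exp_zero] at h1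
      exact h1.eventually_le_const (by linarith)
    have e2 : ∀ᶠ T in atTop, Real.exp (β * (δ T * Real.log (a / 2 * T)) / 2 +
        C * β * (1 + δ T * Real.log (a / 2 * T)) / Real.log (a / 2 * T)) ≤ 1 + ε := by
      have h1 := (Real.continuous_exp.tendsto 0).comp l4
      rw [Real.exp_zero] at h1
      exact h1.eventually_le_const (by linarith)
    have e3 : ∀ᶠ T in atTop, T₀ ≤ a / 2 * T :=
      (tendsto_id.const_mul_atTop ha2).eventually_ge_atTop T₀
    have e4 : ∀ᶠ T in atTop, C ^ β ≤ (b - a) * T :=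
      (tendsto_id.const_mul_atTop (sub_pos.2 hab)).eventually_ge_atTop _
    have e5 : ∀ᶠ T in atTop, δ T ≤ 1 / 8 := h.small.eventually_le_const (by norm_num)
    have e6 : ∀ᶠ T in atTop, 1 ≤ Real.log (a / 2 * T) := l2.eventually_ge_atTop 1
    filter_upwards [e1, e2, e3, e4, e5, e6, log_small ha2 hε, eventually_gt_atTop 0] with T t1 t2 t3 t4 t5 t6 t7 t8
    have hl0 : 0 < Real.log (a / 2 * T) := by linarith
    have hδ0 := h.nonneg T
    have hc0 : 0 ≤ δ T * Real.log (a / 2 * T) := by positivity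
    obtain ⟨k1, k2⟩ := H β (δ T * Real.log (a / 2 * T)) (a / 2 * T) (a * T) (b * T) hβ t3 hc0
      (by rw [le_div_iff₀ (by norm_num)]; nlinarith) (by nlinarith) (by linarith) (by nlinarith)
    have ed : δ T * Real.log (a / 2 * T) / Real.log (a / 2 * T) = δ T := mul_div_cancel_right₀ _ hl0.ne'
    rw [ed] at k1 k2
    have hδne : δ T ≠ 1 / 2 := by linarith
    have n1 : a * T - 2 * Real.log (a / 2 * T) ≥ (a - ε) * T := by linarith
    have n2 : b * T + 2 * Real.log (a / 2 * T) ≤ (b + ε) * T := by linarith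
    have n3 : a * T ≤ b * T := by gcongr
    constructor
    · refine k1.trans ?_
      have m1 : M β 0 (a * T - Real.log (a / 2 * T)) (b * T + Real.log (a / 2 * T)) ≤
          M β 0 ((a - ε) * T) ((b + ε) * T) :=
        M_mono hβ0 (by norm_num) (by linarith) (by linarith) (by linarith)
      have m2 : 0 ≤ M β 0 (a * T - Real.log (a / 2 * T)) (b * T + Real.log (a / 2 * T)) := M_nonneg (by linarith)
      exact mul_le_mul t1 m1 m2 (by linarith)
    · refine k2.trans ?_
      have m1 : M β (δ T) (a * T - 2 * Real.log (a / 2 * T)) (b * T + 2 * Real.log (a / 2 * T)) ≤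
          M β (δ T) ((a - ε) * T) ((b + ε) * T) :=
        M_mono hβ0 hδne (by linarith) (by linarith) (by linarith)
      have m2 : 0 ≤ M β (δ T) (a * T - 2 * Real.log (a / 2 * T)) (b * T + 2 * Real.log (a / 2 * T)) :=
        M_nonneg (by linarith)
      exact mul_le_mul t2 m1 m2 (by linarith)
  exact ⟨fun a b ha hab hb ε hε hεa => (key a b ha hab hb ε hε hεa).mono fun T hT => hT.1,
    fun a b ha hab hb ε hε hεa => (key a b ha hab hb ε hε hεa).mono fun T hT => hT.2⟩

lemma additive (hβ : 1 ≤ β) (h : Small δ) : Additive (fun T a b => M β (δ T) (a * T) (b * T)) := by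
  have e5 : ∀ᶠ T in atTop, δ T ≤ 1 / 8 := h.small.eventually_le_const (by norm_num)
  filter_upwards [e5] with T hT a m b _ _ _
  have hδne : δ T ≠ 1 / 2 := by linarith
  have hβ0 : 0 < β := by linarith
  unfold M
  rw [intervalIntegral.integral_add_adjacent_intervals] <;> exact (int_cont hβ0 hδne).intervalIntegrable _ _

lemma small_zero : Small (fun _ => 0) := ⟨fun _ => le_rfl, by simp⟩

/-- the asymptotic formula on the critical line in windows -/
theorem win_zero (hβ : 1 ≤ β) (κ : ℕ) (c : ℝ) :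
    Tendsto (fun T => 1 / T * M β 0 0 T / Real.log T ^ κ) atTop (𝓝 c) ↔
      Win (fun T a b => M β 0 (a * T) (b * T)) κ c := by
  have hβ0 : 0 < β := by linarith
  have hne : (0 : ℝ) ≠ 1 / 2 := by norm_num
  have hadd : ∀ a b : ℝ, M β 0 a b = M β 0 0 b - M β 0 0 a := by
    intro a b
    unfold M
    rw [intervalIntegral.integral_interval_sub_left] <;> exact (int_cont hβ0 hne).intervalIntegrable _ _
  have hconv : (fun T => 1 / T * M β 0 0 T / Real.log T ^ κ) = fun T => M β 0 0 T / g κ T := by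
    funext T
    unfold g
    rw [one_div_mul_eq_div, div_div]
  rw [hconv]
  constructor
  · intro h a b ha hab
    have h1 : ∀ b : ℝ, 0 < b → Tendsto (fun T => M β 0 0 (b * T) / g κ T) atTop (𝓝 (c * b)) := by
      intro b hb
      have h2 := (h.comp (tendsto_id.const_mul_atTop hb)).mul (g_ratio κ hb)
      refine h2.congr' ?_
      have e3 : ∀ᶠ T in atTop, 1 < b * T := (tendsto_id.const_mul_atTop hb).eventually_gt_atTop 1
      filter_upwards [e3, eventually_gt_atTop 1] with T t1 t2
      have := g_pos κ t1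
      have := g_pos κ t2
      simp only [Function.comp, id]
      field_simp
    have h2 := (h1 b (ha.trans hab)).sub (h1 a ha)
    rw [← mul_sub] at h2
    refine h2.congr fun T => ?_
    show M β 0 0 (b * T) / g κ T - M β 0 0 (a * T) / g κ T = M β 0 (a * T) (b * T) / g κ T
    rw [hadd (a * T) (b * T), sub_div]
  · intro h
    apply of_half
    · have := intervalIntegral.continuous_primitive (fun a b => (int_cont hβ0 hne).intervalIntegrable a b) (μ := volume) 0
      exact this
    · have h1 := h (1 / 2) 1 (by norm_num) (by norm_num)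
      have e : c * (1 - 1 / 2) = c / 2 := by ring
      rw [e] at h1
      refine h1.congr fun T => ?_
      show M β 0 (1 / 2 * T) (1 * T) / g κ T = (M β 0 0 T - M β 0 0 (T / 2)) / g κ T
      rw [hadd (1 / 2 * T) (1 * T), one_mul, one_div_mul_eq_div]

/-- **Equivalence.** -/
theorem line_iff (hβ : 1 ≤ β) (κ : ℕ) (c : ℝ) (h : Small δ) :
    Tendsto (fun T => 1 / T * M β 0 0 T / Real.log T ^ κ) atTop (𝓝 c) ↔
      Win (fun T a b => M β (δ T) (a * T) (b * T)) κ c := by
  rw [win_zero hβ κ c]
  obtain ⟨h1, h2⟩ := cmp hβ h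
  exact ⟨fun hW => transfer hW h1 h2 (additive hβ h), fun hW => transfer hW h2 h1 (additive hβ small_zero)⟩

end Pool.Agent.Q30.NL
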