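import Pool.Agent.Q30.NL.WinS
import Pool.Agent.Q30.NL.Zeta

set_option autoImplicit false

/-!
Moments of zeta on lines at distance `o(1 / log T)` from the critical line, slowly varying normalisation.
-/

open Filter Topology MeasureTheory

namespace Pool.Agent.Q30.NLS

open Pool.Agent.Results.MP_6a632e_nt.NearbyLines (M)
open Pool.Agent.Q30.NL (Small small_zero int_cont M_mono M_nonneg)

variable {β : ℝ} {δ : ℝ → ℝ}

theorem cmp (hβ : 1 ≤ β) (h : Small δ) :
    Cmp (fun T a b => M β 0 (a * T) (b * T)) (fun T a b => M β (δ T) (a * T) (b * T)) ∧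
    Cmp (fun T a b => M β (δ T) (a * T) (b * T)) (fun T a b => M β 0 (a * T) (b * T)) :=
  Pool.Agent.Q30.NL.cmp hβ h

lemma additive (hβ : 1 ≤ β) (h : Small δ) : Additive (fun T a b => M β (δ T) (a * T) (b * T)) :=
  Pool.Agent.Q30.NL.additive hβ h

/-- the asymptotic formula on the critical line in windows -/
theorem win_zero (hβ : 1 ≤ β) {κ : ℝ → ℝ} (hκ : Slow κ) (c : ℝ) :
    Tendsto (fun T => 1 / T * M β 0 0 T / κ T) atTop (𝓝 c) ↔
      Win (fun T a b => M β 0 (a * T) (b * T)) κ c := by
  have hβ0 : 0 < β := by linarith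
  have hne : (0 : ℝ) ≠ 1 / 2 := by norm_num
  have hadd : ∀ a b : ℝ, M β 0 a b = M β 0 0 b - M β 0 0 a := by
    intro a b
    unfold M
    rw [intervalIntegral.integral_interval_sub_left] <;> exact (int_cont hβ0 hne).intervalIntegrable _ _
  have hconv : (fun T => 1 / T * M β 0 0 T / κ T) = fun T => M β 0 0 T / g κ T := by
    funext T
    unfold g
    rw [one_div_mul_eq_div, div_div]
  rw [hconv]
  constructor
  · intro h a b ha hab
    have h1 : ∀ b : ℝ, 0 < b → Tendsto (fun T => M β 0 0 (b * T) / g κ T) atTop (𝓝 (c * b)) := by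
      intro b hb
      have h2 := (h.comp (tendsto_id.const_mul_atTop hb)).mul (g_ratio hκ hb)
      refine h2.congr' ?_
      have e3 : ∀ᶠ T in atTop, 1 < b * T := (tendsto_id.const_mul_atTop hb).eventually_gt_atTop 1
      filter_upwards [e3, eventually_gt_atTop 1] with T t1 t2
      have := g_pos hκ t1
      have := g_pos hκ t2
      simp only [Function.comp, id]
      field_simp
    have h2 := (h1 b (ha.trans hab)).sub (h1 a ha)
    rw [← mul_sub] at h2
    refine h2.congr fun T => ?_
    show M β 0 0 (b * T) / g κ T - M β 0 0 (a * T) / g κ T = M β 0 (a * T) (b * T) / g κ T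
    rw [hadd (a * T) (b * T), sub_div]
  · intro h
    refine of_half ?_ hκ ?_
    · have := intervalIntegral.continuous_primitive (fun a b => (int_cont hβ0 hne).intervalIntegrable a b) (μ := volume) 0
      exact this
    · have h1 := h (1 / 2) 1 (by norm_num) (by norm_num)
      have e : c * (1 - 1 / 2) = c / 2 := by ring
      rw [e] at h1
      refine h1.congr fun T => ?_
      show M β 0 (1 / 2 * T) (1 * T) / g κ T = (M β 0 0 T - M β 0 0 (T / 2)) / g κ T
      rw [hadd (1 / 2 * T) (1 * T), one_mul, one_div_mul_eq_div]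

/-- **Equivalence.** -/
theorem line_iff (hβ : 1 ≤ β) {κ : ℝ → ℝ} (hκ : Slow κ) (c : ℝ) (h : Small δ) :
    Tendsto (fun T => 1 / T * M β 0 0 T / κ T) atTop (𝓝 c) ↔
      Win (fun T a b => M β (δ T) (a * T) (b * T)) κ c := by
  rw [win_zero hβ hκ c]
  obtain ⟨h1, h2⟩ := cmp hβ h
  exact ⟨fun hW => transfer hκ hW h1 h2 (additive hβ h), fun hW => transfer hκ hW h2 h1 (additive hβ small_zero)⟩

end Pool.Agent.Q30.NLS
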